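import Pool.Agent.Helper68.QC.St3

/-!
# PART M, module LJA: weak convergence of the Jacobians
-/

set_option autoImplicit false

open MeasureTheory Set Filter Topology Complex
open scoped ContDiff ComplexConjugate ENNReal

namespace Pool.Agent.Helper95.QCM

open Pool.Agent.Helper68.QC

private lemma ja_sq {a : ℂ → ℂ} (ha : L2 univ a) (R : ℝ) :
    AEStronglyMeasurable a (volume.restrict (Metric.closedBall (0 : ℂ) R)) ∧
      IntegrableOn (fun z => ‖a z‖ ^ 2) (Metric.closedBall (0 : ℂ) R) volume := by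
  have h1 := ha _ (subset_univ _) (isCompact_closedBall 0 R)
  exact ⟨h1.1, (memLp_two_iff_integrable_sq_norm h1.1).1 h1⟩

private lemma ja_jc {a b : ℂ → ℂ} (z : ℂ) : ‖(jc a b z : ℂ)‖ ≤ ‖a z‖ ^ 2 + ‖b z‖ ^ 2 := by
  rw [Complex.norm_real, Real.norm_eq_abs, jc]
  have h1 := sq_nonneg ‖a z‖
  have h2 := sq_nonneg ‖b z‖
  rw [abs_le]
  constructor <;> linarith

private lemma ja_set (R : ℝ) (f : ℂ → ℂ) (hf : ∀ z, R < ‖z‖ → f z = 0) :
    ∫ z in Metric.closedBall (0 : ℂ) R, f z = ∫ z, f z := by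
  apply setIntegral_eq_integral_of_forall_compl_eq_zero
  intro z hz
  apply hf
  by_contra hcon
  exact hz (by simpa using hcon)

private lemma ja_intble (R : ℝ) (f : ℂ → ℂ) (hf : ∀ z, R < ‖z‖ → f z = 0)
    (h : IntegrableOn f (Metric.closedBall (0 : ℂ) R) volume) : Integrable f := by
  rw [← integrableOn_iff_integrable_of_support_subset (s := Metric.closedBall (0 : ℂ) R)]
  · exact h
  · intro z hz
    by_contra hcon
    exact hz (hf z (by simpa using hcon))

private lemma ja_bound {a b : ℂ → ℂ} (ha : L2 univ a) (hb : L2 univ b) (R δ : ℝ) (h : ℂ → ℂ)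
    (hR : ∀ z, R < ‖z‖ → h z = 0) (hδ : ∀ z, ‖h z‖ ≤ δ) :
    ‖∫ z, h z * (jc a b z : ℂ)‖ ≤
      δ * ∫ z in Metric.closedBall (0 : ℂ) R, (‖a z‖ ^ 2 + ‖b z‖ ^ 2) := by
  rw [← ja_set R _ (fun z hz => by rw [hR z hz, zero_mul]), ← integral_const_mul]
  apply norm_integral_le_of_norm_le
  · exact ((ja_sq ha R).2.add (ja_sq hb R).2).const_mul δ
  · refine ae_of_all _ fun z => ?_
    rw [norm_mul]
    exact mul_le_mul (hδ z) (ja_jc z) (norm_nonneg _) ((norm_nonneg _).trans (hδ z))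

private lemma ja_int {a b : ℂ → ℂ} (ha : L2 univ a) (hb : L2 univ b) (R : ℝ) (h : ℂ → ℂ)
    (hc : Continuous h) (hR : ∀ z, R < ‖z‖ → h z = 0) :
    Integrable (fun z => h z * (jc a b z : ℂ)) := by
  apply ja_intble R _ (fun z hz => by rw [hR z hz, zero_mul])
  have hK := isCompact_closedBall (0 : ℂ) R
  obtain ⟨C, hC⟩ := hK.exists_bound_of_continuousOn hc.continuousOn
  have h1 := ja_sq ha R
  have h2 := ja_sq hb R
  have h3 : IntegrableOn (fun z => (jc a b z : ℂ)) (Metric.closedBall (0 : ℂ) R) volume := by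
    have h4 : IntegrableOn (fun z => ‖a z‖ ^ 2 - ‖b z‖ ^ 2) (Metric.closedBall (0 : ℂ) R) volume :=
      h1.2.sub h2.2
    exact h4.ofReal
  exact Integrable.bdd_mul h3 hc.aestronglyMeasurable.restrict
    ((ae_restrict_iff' hK.measurableSet).2 (ae_of_all _ hC))

/-- Convergence of the mixed terms. -/
private lemma ja_mixed {ι : Type} (F : Ultrafilter ι) (W a : ι → ℂ → ℂ) (w a' : ℂ → ℂ)
    (hWc : ∀ i, Continuous (W i)) (hwc : Continuous w) (ha : ∀ i, L2 univ (a i))
    (hW : ∀ R : ℝ, TendstoUniformlyOn W w F (Metric.closedBall 0 R))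
    (hE : ∀ R : ℝ, ∃ B : ℝ, ∀ i, ∫ z in Metric.closedBall (0 : ℂ) R, ‖a i z‖ ^ 2 ≤ B)
    (hwk : WK F a a') (χ : ℂ → ℂ) (hχ : Continuous χ) (R : ℝ) (hR : ∀ z, R < ‖z‖ → χ z = 0) :
    (∀ i, Integrable fun z => W i z * (χ z * conj (a i z))) ∧
    Tendsto (fun i => ∫ z, W i z * (χ z * conj (a i z))) F
      (𝓝 (∫ z, w z * (χ z * conj (a' z)))) := by
  have hK := isCompact_closedBall (0 : ℂ) R
  have hint : ∀ (v : ℂ → ℂ), Continuous v → ∀ i,
      Integrable fun z => v z * (χ z * conj (a i z)) := by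
    intro v hv i
    apply ja_intble R _ (fun z hz => by rw [hR z hz]; ring)
    obtain ⟨C, hC⟩ := hK.exists_bound_of_continuousOn (hv.mul hχ).continuousOn
    have h1 := (ha i) _ (subset_univ _) hK
    have h2 : IntegrableOn (a i) (Metric.closedBall (0 : ℂ) R) volume := by
      have : IsFiniteMeasure ((volume : Measure ℂ).restrict (Metric.closedBall (0 : ℂ) R)) :=
        ⟨by rw [Measure.restrict_apply_univ]; exact hK.measure_lt_top⟩
      exact h1.integrable (by norm_num)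
    have h3 : IntegrableOn (fun z => conj (a i z)) (Metric.closedBall (0 : ℂ) R) volume := by
      have h5 : AEStronglyMeasurable (fun z => conj (a i z))
          (volume.restrict (Metric.closedBall (0 : ℂ) R)) :=
        Complex.continuous_conj.comp_aestronglyMeasurable h2.1
      exact Integrable.mono h2 h5 (ae_of_all _ fun z => by rw [RCLike.norm_conj])
    have h4 : IntegrableOn (fun z => (v z * χ z) * conj (a i z)) (Metric.closedBall (0 : ℂ) R)
        volume := Integrable.bdd_mul h3 (hv.mul hχ).aestronglyMeasurable.restrict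
      ((ae_restrict_iff' hK.measurableSet).2 (ae_of_all _ hC))
    refine h4.congr (ae_of_all _ fun z => ?_)
    simp only
    ring
  refine ⟨fun i => hint _ (hWc i) i, ?_⟩
  -- the limit with `w`
  have h1 : Tendsto (fun i => ∫ z, w z * (χ z * conj (a i z))) F
      (𝓝 (∫ z, w z * (χ z * conj (a' z)))) := by
    have hψc : Continuous fun z => conj (w z * χ z) := Complex.continuous_conj.comp (hwc.mul hχ)
    have hcs : HasCompactSupport fun z => conj (w z * χ z) := by
      apply HasCompactSupport.intro hK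
      intro z hz
      rw [hR z (by simpa using hz)]
      simp
    have h2 := hwk (fun z => conj (w z * χ z)) (hψc.memLp_of_hasCompactSupport hcs)
      ⟨R, fun z hz => by rw [hR z hz]; simp⟩
    have h3 := (Complex.continuous_conj.tendsto _).comp h2
    have e : ∀ u : ℂ → ℂ, conj (∫ z, u z * conj (w z * χ z)) =
        ∫ z, w z * (χ z * conj (u z)) := by
      intro u
      rw [← integral_conj]
      refine integral_congr_ae (ae_of_all _ fun z => ?_)
      simp only [map_mul, Complex.conj_conj]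
      ring
    rw [e] at h3
    exact h3.congr fun i => by rw [Function.comp_apply, e]
  -- the difference
  obtain ⟨B, hB⟩ := hE R
  set C : ℝ := (∫ z in Metric.closedBall (0 : ℂ) R, ‖χ z‖ ^ 2) + B with hC
  have hχi : IntegrableOn (fun z => ‖χ z‖ ^ 2) (Metric.closedBall (0 : ℂ) R) volume :=
    (hχ.norm.pow 2).continuousOn.integrableOn_compact hK
  have h2 : Tendsto (fun i => (∫ z, W i z * (χ z * conj (a i z))) -
      ∫ z, w z * (χ z * conj (a i z))) F (𝓝 0) := by
    rw [Metric.tendsto_nhds]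
    intro ε hε
    have hC0 : 0 < |C| + 1 := by positivity
    have h3 := Metric.tendstoUniformlyOn_iff.1 (hW R) (ε / (|C| + 1)) (by positivity)
    filter_upwards [h3] with i hi
    rw [dist_zero_right, ← integral_sub (hint _ (hWc i) i) (hint _ hwc i),
      ← ja_set R _ (fun z hz => by rw [hR z hz]; ring)]
    have h4 : ‖∫ z in Metric.closedBall (0 : ℂ) R,
        (W i z * (χ z * conj (a i z)) - w z * (χ z * conj (a i z)))‖ ≤
        ∫ z in Metric.closedBall (0 : ℂ) R,
          (ε / (|C| + 1)) * ((‖χ z‖ ^ 2 + ‖a i z‖ ^ 2) / 2) := by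
      apply norm_integral_le_of_norm_le
      · exact ((hχi.add (ja_sq (ha i) R).2).div_const 2).const_mul _
      · refine (ae_restrict_iff' hK.measurableSet).2 (ae_of_all _ fun z hz => ?_)
        rw [← sub_mul, norm_mul, norm_mul, RCLike.norm_conj]
        have h5 := hi z hz
        rw [dist_comm, dist_eq_norm] at h5
        have h6 : ‖χ z‖ * ‖a i z‖ ≤ (‖χ z‖ ^ 2 + ‖a i z‖ ^ 2) / 2 := by
          nlinarith [sq_nonneg (‖χ z‖ - ‖a i z‖)]
        exact mul_le_mul h5.le h6 (by positivity) (by positivity)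
    refine h4.trans_lt ?_
    rw [integral_const_mul, integral_div, integral_add hχi (ja_sq (ha i) R).2]
    have h7 : (∫ z in Metric.closedBall (0 : ℂ) R, ‖χ z‖ ^ 2) +
        ∫ z in Metric.closedBall (0 : ℂ) R, ‖a i z‖ ^ 2 ≤ |C| := by
      have h8 := hB i
      have h9 := le_abs_self C
      linarith
    calc ε / (|C| + 1) * (((∫ z in Metric.closedBall (0 : ℂ) R, ‖χ z‖ ^ 2) +
        ∫ z in Metric.closedBall (0 : ℂ) R, ‖a i z‖ ^ 2) / 2)
        ≤ ε / (|C| + 1) * (|C| / 2) := mul_le_mul_of_nonneg_left (by linarith) (by positivity)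
      _ < ε / (|C| + 1) * (|C| + 1) := by
          apply mul_lt_mul_of_pos_left _ (by positivity)
          have := abs_nonneg C
          linarith
      _ = ε := by field_simp
  have h3 := h2.add h1
  rw [zero_add] at h3
  exact h3.congr fun i => by ring

theorem pLJA (hJIB : StJIB) (hMO1 : StMO1) (hMO2 : StMO2) : Pool.Agent.Helper68.QC.StLJA := by
  intro ι F W a b w a' b' hWD hwd hW hEB hka hkb
  have hWc : ∀ i, Continuous (W i) := fun i => continuousOn_univ.1 (hWD i).cont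
  have hwc : Continuous w := continuousOn_univ.1 hwd.cont
  have hEa : ∀ R : ℝ, ∃ B : ℝ, ∀ i, ∫ z in Metric.closedBall (0 : ℂ) R, ‖a i z‖ ^ 2 ≤ B := by
    intro R
    obtain ⟨B, hB⟩ := hEB R
    refine ⟨B, fun i => ?_⟩
    have h1 := hB i
    rw [integral_add (ja_sq (hWD i).l2a R).2 (ja_sq (hWD i).l2b R).2] at h1
    have h2 : 0 ≤ ∫ z in Metric.closedBall (0 : ℂ) R, ‖b i z‖ ^ 2 :=
      integral_nonneg fun z => by positivity
    linarith
  have hEb : ∀ R : ℝ, ∃ B : ℝ, ∀ i, ∫ z in Metric.closedBall (0 : ℂ) R, ‖b i z‖ ^ 2 ≤ B := by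
    intro R
    obtain ⟨B, hB⟩ := hEB R
    refine ⟨B, fun i => ?_⟩
    have h1 := hB i
    rw [integral_add (ja_sq (hWD i).l2a R).2 (ja_sq (hWD i).l2b R).2] at h1
    have h2 : 0 ≤ ∫ z in Metric.closedBall (0 : ℂ) R, ‖a i z‖ ^ 2 :=
      integral_nonneg fun z => by positivity
    linarith
  -- test functions
  have htst : ∀ ψ : ℂ → ℂ, Tst univ ψ →
      Tendsto (fun i => ∫ z, ψ z * (jc (a i) (b i) z : ℂ)) F
        (𝓝 (∫ z, ψ z * (jc a' b' z : ℂ))) := by
    intro ψ hψ
    have hR : ∀ χ : ℂ → ℂ, HasCompactSupport χ → ∃ R : ℝ, ∀ z, R < ‖z‖ → χ z = 0 := by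
      intro χ hχ
      obtain ⟨R, hR⟩ := hχ.isBounded.subset_closedBall 0
      refine ⟨R, fun z hz => ?_⟩
      by_contra hcon
      have := hR (subset_tsupport _ hcon)
      rw [mem_closedBall_zero_iff] at this
      linarith
    obtain ⟨R1, hR1⟩ := hR _ hψ.hdz.cpt
    obtain ⟨R2, hR2⟩ := hR _ hψ.hdzb.cpt
    obtain ⟨i1, t1⟩ := ja_mixed F W a w a' hWc hwc (fun i => (hWD i).l2a) hW hEa hka _
      hψ.hdz.continuous R1 hR1
    obtain ⟨i2, t2⟩ := ja_mixed F W b w b' hWc hwc (fun i => (hWD i).l2b) hW hEb hkb _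
      hψ.hdzb.continuous R2 hR2
    obtain ⟨i3, -⟩ := ja_mixed F (fun _ => w) (fun _ => a') w a' (fun _ => hwc) hwc
      (fun _ => hwd.l2a) (fun R => by
        rw [Metric.tendstoUniformlyOn_iff]
        intro ε hε
        exact Filter.Eventually.of_forall fun i z _ => by rw [dist_self]; exact hε)
      (fun R => ⟨_, fun _ => le_rfl⟩) (fun φ _ _ => tendsto_const_nhds) _
      hψ.hdz.continuous R1 hR1
    obtain ⟨i4, -⟩ := ja_mixed F (fun _ => w) (fun _ => b') w b' (fun _ => hwc) hwc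
      (fun _ => hwd.l2b) (fun R => by
        rw [Metric.tendstoUniformlyOn_iff]
        intro ε hε
        exact Filter.Eventually.of_forall fun i z _ => by rw [dist_self]; exact hε)
      (fun R => ⟨_, fun _ => le_rfl⟩) (fun φ _ _ => tendsto_const_nhds) _
      hψ.hdzb.continuous R2 hR2
    obtain ⟨i0⟩ : Nonempty ι := F.neBot.nonempty
    have e : ∀ (W a b : ℂ → ℂ), WD univ W a b →
        (Integrable fun z => W z * (dz ψ z * conj (a z))) →
        (Integrable fun z => W z * (dzb ψ z * conj (b z))) →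
        ∫ z, ψ z * (jc a b z : ℂ) = -((∫ z, W z * (dz ψ z * conj (a z))) -
          ∫ z, W z * (dzb ψ z * conj (b z))) := by
      intro W a b h h1 h2
      rw [hJIB W a b ψ h hψ, ← integral_sub h1 h2]
      congr 1
      refine integral_congr_ae (ae_of_all _ fun z => ?_)
      simp only
      ring
    rw [e w a' b' hwd (i3 i0) (i4 i0)]
    refine ((t1.sub t2).neg).congr fun i => ?_
    rw [e (W i) (a i) (b i) (hWD i) (i1 i) (i2 i)]
  -- general functions
  intro ψ hψc hψs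
  obtain ⟨R, hR⟩ : ∃ R : ℝ, ∀ z, R < ‖z‖ → ψ z = 0 := by
    obtain ⟨R, hR⟩ := hψs.isBounded.subset_closedBall 0
    refine ⟨R, fun z hz => ?_⟩
    by_contra hcon
    have := hR (subset_tsupport _ hcon)
    rw [mem_closedBall_zero_iff] at this
    linarith
  obtain ⟨m1, _, _, m4, _, _, _⟩ := hMO1
  obtain ⟨c1, _⟩ := hMO2
  have hψli : LocallyIntegrable ψ volume := hψc.locallyIntegrable
  have hmz : ∀ n, ∀ z, R + 1 < ‖z‖ → mol n ψ z = 0 := fun n => m4 n ψ R hR
  have hψz : ∀ z, R + 1 < ‖z‖ → ψ z = 0 := fun z hz => hR z (by linarith)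
  have hmt : ∀ n, Tst univ (mol n ψ) := fun n => ⟨(m1 n ψ hψli).1,
    HasCompactSupport.intro (isCompact_closedBall (0 : ℂ) (R + 1)) fun z hz =>
      hmz n z (by simpa using hz), subset_univ _⟩
  have hunif := c1 ψ hψc hψs
  obtain ⟨B, hB⟩ := hEB (R + 1)
  set B' : ℝ := ∫ z in Metric.closedBall (0 : ℂ) (R + 1), (‖a' z‖ ^ 2 + ‖b' z‖ ^ 2) with hB'
  have hB0 : 0 ≤ B' := integral_nonneg fun z => by positivity
  rw [Metric.tendsto_nhds]
  intro ε hε
  set δ : ℝ := ε / (3 * (|B| + B' + 1)) with hδ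
  have hδ0 : 0 < δ := by positivity
  obtain ⟨n, hn⟩ := (Metric.tendstoUniformly_iff.1 hunif δ hδ0).exists
  have hnδ : ∀ z, ‖ψ z - mol n ψ z‖ ≤ δ := fun z => by
    rw [← dist_eq_norm]
    exact (hn z).le
  have hdiff : ∀ a b : ℂ → ℂ, L2 univ a → L2 univ b →
      ‖(∫ z, ψ z * (jc a b z : ℂ)) - ∫ z, mol n ψ z * (jc a b z : ℂ)‖ ≤
        δ * ∫ z in Metric.closedBall (0 : ℂ) (R + 1), (‖a z‖ ^ 2 + ‖b z‖ ^ 2) := by
    intro a b ha hb
    rw [← integral_sub (ja_int ha hb (R + 1) ψ hψc hψz)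
      (ja_int ha hb (R + 1) _ (hmt n).continuous (hmz n))]
    have h1 := ja_bound ha hb (R + 1) δ (fun z => ψ z - mol n ψ z)
      (fun z hz => by simp only [hψz z hz, hmz n z hz, sub_zero]) hnδ
    have h2 : ∫ z, (ψ z * (jc a b z : ℂ) - mol n ψ z * (jc a b z : ℂ)) =
        ∫ z, (ψ z - mol n ψ z) * (jc a b z : ℂ) :=
      integral_congr_ae (ae_of_all _ fun z => by simp only; ring)
    rw [h2]
    exact h1
  have h1 := Metric.tendsto_nhds.1 (htst _ (hmt n)) (ε / 3) (by positivity)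
  filter_upwards [h1] with i hi
  have h2 := hdiff (a i) (b i) (hWD i).l2a (hWD i).l2b
  have h3 := hdiff a' b' hwd.l2a hwd.l2b
  have h4 : δ * ∫ z in Metric.closedBall (0 : ℂ) (R + 1), (‖a i z‖ ^ 2 + ‖b i z‖ ^ 2) ≤
      δ * |B| := mul_le_mul_of_nonneg_left ((hB i).trans (le_abs_self B)) hδ0.le
  have h5 : δ * (|B| + B' + 1) = ε / 3 := by
    rw [hδ]
    field_simp
  have h6 := abs_nonneg B
  rw [dist_eq_norm] at hi ⊢
  have h7 : (∫ z, ψ z * (jc (a i) (b i) z : ℂ)) - ∫ z, ψ z * (jc a' b' z : ℂ) =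
      ((∫ z, ψ z * (jc (a i) (b i) z : ℂ)) - ∫ z, mol n ψ z * (jc (a i) (b i) z : ℂ)) +
      ((∫ z, mol n ψ z * (jc (a i) (b i) z : ℂ)) - ∫ z, mol n ψ z * (jc a' b' z : ℂ)) -
      ((∫ z, ψ z * (jc a' b' z : ℂ)) - ∫ z, mol n ψ z * (jc a' b' z : ℂ)) := by ring
  rw [h7]
  refine (norm_sub_le _ _).trans_lt ?_
  have h8 := norm_add_le
    ((∫ z, ψ z * (jc (a i) (b i) z : ℂ)) - ∫ z, mol n ψ z * (jc (a i) (b i) z : ℂ))
    ((∫ z, mol n ψ z * (jc (a i) (b i) z : ℂ)) - ∫ z, mol n ψ z * (jc a' b' z : ℂ))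
  nlinarith

end Pool.Agent.Helper95.QCM
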