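import Pool.Agent.Helper68.QC.St3

/-!
# PART M, module LKK: the dilatation bound passes to the limit
-/

set_option autoImplicit false

open MeasureTheory Set Filter Topology Complex
open scoped ContDiff ComplexConjugate ENNReal

namespace Pool.Agent.Helper95.QCM

open Pool.Agent.Helper68.QC

private lemma lk_sq {a : ℂ → ℂ} (ha : L2 univ a) (R : ℝ) :
    IntegrableOn (fun z => ‖a z‖ ^ 2) (Metric.closedBall (0 : ℂ) R) volume := by
  have h1 := ha _ (subset_univ _) (isCompact_closedBall 0 R)
  exact (memLp_two_iff_integrable_sq_norm h1.1).1 h1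

private lemma lk_int {f : ℂ → ℝ} (R : ℝ)
    (hf : IntegrableOn f (Metric.closedBall (0 : ℂ) R) volume) (ψ : ℂ → ℝ) (hc : Continuous ψ)
    (hR : ∀ z, R < ‖z‖ → ψ z = 0) : Integrable (fun z => ψ z * f z) := by
  rw [← integrableOn_iff_integrable_of_support_subset (s := Metric.closedBall (0 : ℂ) R)]
  · have hK := isCompact_closedBall (0 : ℂ) R
    obtain ⟨C, hC⟩ := hK.exists_bound_of_continuousOn hc.continuousOn
    exact Integrable.bdd_mul hf hc.aestronglyMeasurable.restrict
      ((ae_restrict_iff' hK.measurableSet).2 (ae_of_all _ hC))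
  · intro z hz
    by_contra hcon
    apply hz
    simp only
    rw [hR z (by simpa using hcon), zero_mul]

/-- A locally integrable function with nonnegative integrals against nonnegative continuous
functions of compact support is nonnegative. -/
private lemma lk_nonneg (f : ℂ → ℝ)
    (hf : ∀ R : ℝ, IntegrableOn f (Metric.closedBall (0 : ℂ) R) volume)
    (h : ∀ ψ : ℂ → ℝ, Continuous ψ → (∀ z, 0 ≤ ψ z) → (∃ R : ℝ, ∀ z, R < ‖z‖ → ψ z = 0) →
      0 ≤ ∫ z, ψ z * f z) : ∀ᵐ z, 0 ≤ f z := by
  have hm : AEStronglyMeasurable f volume := by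
    have h2 := AEStronglyMeasurable.iUnion (fun n : ℕ => (hf n).1)
    rw [Metric.iUnion_closedBall_nat, Measure.restrict_univ] at h2
    exact h2
  -- compact sets
  have hK : ∀ K : Set ℂ, IsCompact K → K.Nonempty → 0 ≤ ∫ z in K, f z := by
    intro K hK hne
    obtain ⟨R, hR⟩ := hK.isBounded.subset_closedBall 0
    let ψ : ℕ → ℂ → ℝ := fun n z => max 0 (1 - (n + 1) * Metric.infDist z K)
    have hψc : ∀ n, Continuous (ψ n) := fun n =>
      continuous_const.max (continuous_const.sub
        (continuous_const.mul (Metric.continuous_infDist_pt K)))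
    have hψ0 : ∀ n z, 0 ≤ ψ n z := fun n z => le_max_left _ _
    have hψ1 : ∀ n z, ψ n z ≤ 1 := fun n z => by
      apply max_le zero_le_one
      have : 0 ≤ ((n : ℝ) + 1) * Metric.infDist z K :=
        mul_nonneg (by positivity) Metric.infDist_nonneg
      linarith
    have hψR : ∀ n z, R + 1 < ‖z‖ → ψ n z = 0 := by
      intro n z hz
      apply max_eq_left
      have h1 : 1 ≤ Metric.infDist z K := by
        apply (Metric.le_infDist hne).2
        intro y hy
        have h2 := hR hy
        rw [mem_closedBall_zero_iff] at h2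
        have h3 := norm_sub_norm_le z y
        rw [dist_eq_norm]
        linarith
      have h4 : (1 : ℝ) ≤ (n : ℝ) + 1 := by
        have : (0 : ℝ) ≤ n := Nat.cast_nonneg n
        linarith
      nlinarith
    have hlim : ∀ z, Tendsto (fun n => ψ n z * f z) atTop (𝓝 (K.indicator f z)) := by
      intro z
      by_cases hz : z ∈ K
      · rw [indicator_of_mem hz]
        have h1 : ∀ n, ψ n z = 1 := fun n => by
          change max 0 (1 - ((n : ℝ) + 1) * Metric.infDist z K) = 1
          rw [Metric.infDist_zero_of_mem hz]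
          simp
        simp only [h1, one_mul]
        exact tendsto_const_nhds
      · rw [indicator_of_notMem hz]
        have h1 : 0 < Metric.infDist z K :=
          (hK.isClosed.notMem_iff_infDist_pos hne).1 hz
        have h2 : ∀ᶠ n : ℕ in atTop, ψ n z * f z = 0 := by
          obtain ⟨N, hN⟩ := exists_nat_gt (1 / Metric.infDist z K)
          filter_upwards [eventually_ge_atTop N] with n hn
          have h3 : ψ n z = 0 := by
            apply max_eq_left
            have h4 : (N : ℝ) ≤ n := by exact_mod_cast hn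
            have h5 : 1 / Metric.infDist z K < (n : ℝ) + 1 := by linarith
            rw [div_lt_iff₀ h1] at h5
            linarith
          rw [h3, zero_mul]
        exact tendsto_const_nhds.congr' (h2.mono fun n hn => hn.symm)
    have hdom : Tendsto (fun n => ∫ z, ψ n z * f z) atTop (𝓝 (∫ z, K.indicator f z)) := by
      apply tendsto_integral_of_dominated_convergence
        ((Metric.closedBall (0 : ℂ) (R + 1)).indicator fun z => ‖f z‖)
      · intro n
        exact (hψc n).aestronglyMeasurable.mul hm
      · rw [integrable_indicator_iff measurableSet_closedBall]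
        exact (hf (R + 1)).norm
      · intro n
        refine ae_of_all _ fun z => ?_
        by_cases hz : R + 1 < ‖z‖
        · rw [hψR n z hz, zero_mul, norm_zero]
          exact indicator_nonneg (fun _ _ => norm_nonneg _) z
        · rw [indicator_of_mem (by simpa using hz), norm_mul, Real.norm_eq_abs,
            abs_of_nonneg (hψ0 n z)]
          exact mul_le_of_le_one_left (norm_nonneg _) (hψ1 n z)
      · exact ae_of_all _ hlim
    rw [integral_indicator hK.measurableSet] at hdom
    exact ge_of_tendsto' hdom fun n => h (ψ n) (hψc n) (hψ0 n) ⟨R + 1, hψR n⟩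
  -- the negative set
  have hg := hm.ae_eq_mk
  have hgm : Measurable (hm.mk f) := hm.stronglyMeasurable_mk.measurable
  set g := hm.mk f with hgdef
  have hE : MeasurableSet {z | g z < 0} := measurableSet_lt hgm measurable_const
  have hE0 : volume {z | g z < 0} = 0 := by
    by_contra hne
    obtain ⟨K, hKE, hKc, hKpos⟩ := hE.exists_lt_isCompact (pos_iff_ne_zero.2 hne)
    have hKne : K.Nonempty := by
      rw [nonempty_iff_ne_empty]
      rintro rfl
      simp at hKpos
    have h1 := hK K hKc hKne
    have h2 : ∫ z in K, f z = ∫ z in K, g z :=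
      integral_congr_ae (ae_restrict_of_ae hg)
    rw [h2] at h1
    obtain ⟨R, hR⟩ := hKc.isBounded.subset_closedBall 0
    have hgi : IntegrableOn g K volume :=
      ((hf R).mono_set hR).congr (ae_restrict_of_ae hg)
    have h3 : 0 < ∫ z in K, -g z := by
      rw [setIntegral_pos_iff_support_of_nonneg_ae]
      · refine hKpos.trans_le (measure_mono fun z hz => ⟨?_, hz⟩)
        have : g z < 0 := hKE hz
        rw [Function.mem_support]
        linarith
      · refine (ae_restrict_iff' hKc.measurableSet).2 (ae_of_all _ fun z hz => ?_)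
        have : g z < 0 := hKE hz
        simp only [Pi.zero_apply]
        linarith
      · exact hgi.neg
    rw [integral_neg] at h3
    linarith
  have h4 : ∀ᵐ z, ¬ g z < 0 := by
    rw [ae_iff]
    simpa using hE0
  filter_upwards [hg, h4] with z hz1 hz2
  rw [hz1]
  exact not_lt.1 hz2

theorem pLKK : Pool.Agent.Helper68.QC.StLKK := by
  intro k ι F a b a' b' hk0 hk1 ha hb hab ha' hb' hwk hjc
  have hkk : 0 < 1 - k ^ 2 := by nlinarith
  have hmain : ∀ᵐ z, 0 ≤ k ^ 2 * ‖a' z‖ ^ 2 - ‖b' z‖ ^ 2 := by
    apply lk_nonneg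
    · intro R
      exact ((lk_sq ha' R).const_mul _).sub (lk_sq hb' R)
    intro ψ hψc hψ0 hψR
    obtain ⟨R, hR⟩ := hψR
    have hK := isCompact_closedBall (0 : ℂ) R
    obtain ⟨C, hC⟩ := hK.exists_bound_of_continuousOn hψc.continuousOn
    -- the test function for the weak convergence
    have hφ : MemLp (fun z => (ψ z : ℂ) * conj (a' z)) 2 volume := by
      have e : (fun z => (ψ z : ℂ) * conj (a' z)) =
          (Metric.closedBall (0 : ℂ) R).indicator (fun z => (ψ z : ℂ) * conj (a' z)) := by
        ext z
        by_cases hz : R < ‖z‖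
        · rw [indicator_of_notMem (by simpa using hz), hR z hz]
          simp
        · rw [indicator_of_mem (by simpa using hz)]
      rw [e, memLp_indicator_iff_restrict measurableSet_closedBall]
      have h1 := ha' _ (subset_univ _) hK
      refine h1.of_le_mul (c := C) ?_ ?_
      · exact (Complex.continuous_ofReal.comp hψc).aestronglyMeasurable.restrict.mul
          (Complex.continuous_conj.comp_aestronglyMeasurable h1.1)
      · refine (ae_restrict_iff' hK.measurableSet).2 (ae_of_all _ fun z hz => ?_)
        rw [norm_mul, RCLike.norm_conj, Complex.norm_real]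
        exact mul_le_mul_of_nonneg_right (hC z hz) (norm_nonneg _)
    have h1 := hwk _ hφ ⟨R, fun z hz => by rw [hR z hz]; simp⟩
    have hψs : HasCompactSupport fun z => (ψ z : ℂ) :=
      HasCompactSupport.intro hK fun z hz => by
        rw [hR z (by simpa using hz)]
        simp
    have h2 := hjc (fun z => (ψ z : ℂ)) (Complex.continuous_ofReal.comp hψc) hψs
    have e2 : ∀ a b : ℂ → ℂ, ∫ z, (ψ z : ℂ) * (jc a b z : ℂ) =
        ((∫ z, ψ z * (‖a z‖ ^ 2 - ‖b z‖ ^ 2) : ℝ) : ℂ) := by
      intro a b
      rw [← integral_complex_ofReal]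
      refine integral_congr_ae (ae_of_all _ fun z => ?_)
      simp only [jc]
      push_cast
      ring
    simp only [e2] at h2
    have h3 : Tendsto (fun i => ∫ z, ψ z * (‖a i z‖ ^ 2 - ‖b i z‖ ^ 2)) F
        (𝓝 (∫ z, ψ z * (‖a' z‖ ^ 2 - ‖b' z‖ ^ 2))) := by
      have := (Complex.continuous_re.tendsto _).comp h2
      simpa [Function.comp_def] using this
    have h4 : Tendsto (fun i => (∫ z, a i z * ((ψ z : ℂ) * conj (a' z))).re) F
        (𝓝 (∫ z, ψ z * ‖a' z‖ ^ 2)) := by
      have h5 := (Complex.continuous_re.tendsto _).comp h1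
      have e3 : (∫ z, a' z * ((ψ z : ℂ) * conj (a' z))) = ((∫ z, ψ z * ‖a' z‖ ^ 2 : ℝ) : ℂ) := by
        rw [← integral_complex_ofReal]
        refine integral_congr_ae (ae_of_all _ fun z => ?_)
        simp only
        push_cast
        rw [← Complex.mul_conj']
        ring
      rw [e3, Complex.ofReal_re] at h5
      exact h5
    set Z : ℝ := ∫ z, ψ z * ‖a' z‖ ^ 2 with hZ
    have iZ : Integrable fun z => ψ z * ‖a' z‖ ^ 2 := lk_int R (lk_sq ha' R) ψ hψc hR
    have h6 : ∀ i, (1 - k ^ 2) * (2 * (∫ z, a i z * ((ψ z : ℂ) * conj (a' z))).re - Z) ≤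
        ∫ z, ψ z * (‖a i z‖ ^ 2 - ‖b i z‖ ^ 2) := by
      intro i
      have i1 : IntegrableOn (fun z => (a i z * conj (a' z)).re) (Metric.closedBall (0 : ℂ) R)
          volume := by
        have m1 := ha i _ (subset_univ _) hK
        have m2 := ha' _ (subset_univ _) hK
        have m3 : MemLp (fun z => conj (a' z)) 2
            (volume.restrict (Metric.closedBall (0 : ℂ) R)) :=
          m2.of_le_mul (c := 1) (Complex.continuous_conj.comp_aestronglyMeasurable m2.1)
            (ae_of_all _ fun z => by rw [RCLike.norm_conj, one_mul])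
        exact (MemLp.integrable_mul m1 m3).re
      have i2 : Integrable fun z => ψ z * (a i z * conj (a' z)).re := lk_int R i1 ψ hψc hR
      have i3 : Integrable fun z => ψ z * (‖a i z‖ ^ 2 - ‖b i z‖ ^ 2) :=
        lk_int R ((lk_sq (ha i) R).sub (lk_sq (hb i) R)) ψ hψc hR
      have e4 : (∫ z, a i z * ((ψ z : ℂ) * conj (a' z))).re =
          ∫ z, ψ z * (a i z * conj (a' z)).re := by
        have i4 : Integrable fun z => a i z * ((ψ z : ℂ) * conj (a' z)) := by
          rw [← integrableOn_iff_integrable_of_support_subset (s := Metric.closedBall (0 : ℂ) R)]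
          · exact MemLp.integrable_mul (ha i _ (subset_univ _) hK) (hφ.restrict _)
          · intro z hz
            by_contra hcon
            apply hz
            simp only
            rw [hR z (by simpa using hcon)]
            simp
        have h7 := integral_re i4
        simp only [RCLike.re_eq_complex_re] at h7
        rw [← h7]
        refine integral_congr_ae (ae_of_all _ fun z => ?_)
        simp only
        have : a i z * ((ψ z : ℂ) * conj (a' z)) = (ψ z : ℂ) * (a i z * conj (a' z)) := by ring
        rw [this, Complex.re_ofReal_mul]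
      rw [e4, hZ, ← integral_const_mul, ← integral_sub (i2.const_mul 2) iZ, ← integral_const_mul]
      apply integral_mono_ae (((i2.const_mul 2).sub iZ).const_mul _) i3
      filter_upwards [hab i] with z hz
      simp only [Pi.sub_apply]
      have h8 : 0 ≤ ‖a i z - a' z‖ ^ 2 := by positivity
      rw [← Complex.normSq_eq_norm_sq, Complex.normSq_sub, Complex.normSq_eq_norm_sq,
        Complex.normSq_eq_norm_sq] at h8
      have h9 : ‖b i z‖ ^ 2 ≤ k ^ 2 * ‖a i z‖ ^ 2 := by
        rw [← mul_pow]
        exact pow_le_pow_left₀ (norm_nonneg _) hz 2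
      have h10 : (1 - k ^ 2) * (2 * (a i z * conj (a' z)).re - ‖a' z‖ ^ 2) ≤
          ‖a i z‖ ^ 2 - ‖b i z‖ ^ 2 := by
        have h11 : (1 - k ^ 2) * (2 * (a i z * conj (a' z)).re - ‖a' z‖ ^ 2) ≤
            (1 - k ^ 2) * ‖a i z‖ ^ 2 := mul_le_mul_of_nonneg_left (by linarith) hkk.le
        linarith
      have h12 := mul_le_mul_of_nonneg_left h10 (hψ0 z)
      linarith
    have h7 : (1 - k ^ 2) * (2 * Z - Z) ≤ ∫ z, ψ z * (‖a' z‖ ^ 2 - ‖b' z‖ ^ 2) :=
      le_of_tendsto_of_tendsto (((h4.const_mul 2).sub_const Z).const_mul (1 - k ^ 2)) h3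
        (Filter.Eventually.of_forall h6)
    have i5 : Integrable fun z => ψ z * (‖a' z‖ ^ 2 - ‖b' z‖ ^ 2) :=
      lk_int R ((lk_sq ha' R).sub (lk_sq hb' R)) ψ hψc hR
    have e5 : ∫ z, ψ z * (k ^ 2 * ‖a' z‖ ^ 2 - ‖b' z‖ ^ 2) =
        (∫ z, ψ z * (‖a' z‖ ^ 2 - ‖b' z‖ ^ 2)) - (1 - k ^ 2) * Z := by
      rw [hZ, ← integral_const_mul, ← integral_sub i5 (iZ.const_mul _)]
      refine integral_congr_ae (ae_of_all _ fun z => ?_)
      simp only
      ring
    rw [e5]
    linarith
  filter_upwards [hmain] with z hz
  have h1 : ‖b' z‖ ^ 2 ≤ (k * ‖a' z‖) ^ 2 := by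
    rw [mul_pow]
    linarith
  exact le_of_sq_le_sq h1 (by positivity)

end Pool.Agent.Helper95.QCM
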