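import Pool.Agent.Helper68.QC.St3

/-!
# PART M, module WKL: weak limits in `L²_loc` along an ultrafilter
-/

set_option autoImplicit false

open MeasureTheory Set Filter Topology Complex
open scoped ContDiff ComplexConjugate ENNReal

namespace Pool.Agent.Helper95.QCM

open Pool.Agent.Helper68.QC

/-- Bounded families in a Hilbert space have weak limits along ultrafilters. -/
private lemma weak_limit {H : Type*} [NormedAddCommGroup H] [InnerProductSpace ℂ H]
    [CompleteSpace H] {ι : Type} (F : Ultrafilter ι) (X : ι → H) (C : ℝ) (hX : ∀ i, ‖X i‖ ≤ C) :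
    ∃ x : H, ∀ y : H, Tendsto (fun i => inner ℂ y (X i)) F (𝓝 (inner ℂ y x)) := by
  let Φ : ι → WeakDual ℂ H := fun i => StrongDual.toWeakDual (InnerProductSpace.toDual ℂ H (X i))
  have hK : IsCompact (WeakDual.toStrongDual ⁻¹' Metric.closedBall (0 : StrongDual ℂ H) C) :=
    WeakDual.isCompact_closedBall (𝕜 := ℂ) (E := H) 0 C
  have hm : ∀ i, Φ i ∈ WeakDual.toStrongDual ⁻¹' Metric.closedBall (0 : StrongDual ℂ H) C := by
    intro i
    change InnerProductSpace.toDual ℂ H (X i) ∈ Metric.closedBall (0 : StrongDual ℂ H) C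
    rw [mem_closedBall_zero_iff, LinearIsometryEquiv.norm_map]
    exact hX i
  obtain ⟨Λ, _, hΛ⟩ := hK.ultrafilter_le_nhds' (F.map Φ)
    (Ultrafilter.mem_map.2 (Filter.univ_mem' hm))
  have hΛ' : Tendsto Φ F (𝓝 Λ) := hΛ
  refine ⟨(InnerProductSpace.toDual ℂ H).symm (WeakDual.toStrongDual Λ), fun y => ?_⟩
  have h1 : Tendsto (fun i => Φ i y) F (𝓝 (Λ y)) :=
    ((WeakDual.eval_continuous y).tendsto Λ).comp hΛ'
  have h2 : ∀ i, Φ i y = inner ℂ (X i) y := fun i => rfl
  have h3 : Λ y = inner ℂ ((InnerProductSpace.toDual ℂ H).symm (WeakDual.toStrongDual Λ)) y := by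
    rw [InnerProductSpace.toDual_symm_apply]
    rfl
  rw [h3] at h1
  simp only [h2] at h1
  have h4 := (Complex.continuous_conj.tendsto _).comp h1
  refine (tendsto_congr fun i => ?_).1 (h4.trans (le_of_eq ?_))
  · simp only [Function.comp_apply]
    exact inner_conj_symm y (X i)
  · rw [inner_conj_symm]

private lemma eL2 {μ : Measure ℂ} (f : ℂ → ℂ) :
    eLpNorm f 2 μ = (∫⁻ x, ‖f x‖ₑ ^ 2 ∂μ) ^ (1 / 2 : ℝ) := by
  rw [eLpNorm_eq_lintegral_rpow_enorm_toReal (by norm_num) (by norm_num)]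
  simp

private lemma aesm {f : ℂ → ℂ} (h : L2 univ f) : AEStronglyMeasurable f volume := by
  have h1 : ∀ n : ℕ, AEStronglyMeasurable f
      ((volume : Measure ℂ).restrict (Metric.closedBall (0 : ℂ) n)) := fun n =>
    (h _ (subset_univ _) (isCompact_closedBall 0 (n : ℝ))).1
  have h2 := AEStronglyMeasurable.iUnion h1
  rw [Metric.iUnion_closedBall_nat, Measure.restrict_univ] at h2
  exact h2

private lemma lint_ball {f : ℂ → ℂ} (h : L2 univ f) (R B : ℝ)
    (hB : ∫ z in Metric.closedBall (0 : ℂ) R, ‖f z‖ ^ 2 ≤ B) :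
    ∫⁻ z in Metric.closedBall (0 : ℂ) R, ‖f z‖ₑ ^ 2 ≤ ENNReal.ofReal B := by
  have h1 := h _ (subset_univ _) (isCompact_closedBall 0 R)
  have h2 : Integrable (fun z => ‖f z‖ ^ 2) (volume.restrict (Metric.closedBall (0 : ℂ) R)) :=
    (memLp_two_iff_integrable_sq_norm h1.1).1 h1
  have h3 := ofReal_integral_eq_lintegral_ofReal h2 (ae_of_all _ fun z => by positivity)
  have h4 : ∫⁻ z in Metric.closedBall (0 : ℂ) R, ‖f z‖ₑ ^ 2 =
      ∫⁻ z in Metric.closedBall (0 : ℂ) R, ENNReal.ofReal (‖f z‖ ^ 2) := by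
    refine lintegral_congr fun z => ?_
    rw [ENNReal.ofReal_pow (norm_nonneg _), ofReal_norm]
  rw [h4, ← h3]
  exact ENNReal.ofReal_le_ofReal hB

private lemma lower (w : ℕ → ℝ) (hw : ∀ n, 0 < w n) (N : ℕ) : ∃ c > 0, ∀ n ≤ N, c ≤ w n := by
  induction N with
  | zero => exact ⟨w 0, hw 0, fun n hn => by rw [Nat.le_zero.1 hn]⟩
  | succ N ih =>
    obtain ⟨c, hc, h⟩ := ih
    refine ⟨min c (w (N + 1)), lt_min hc (hw _), fun n hn => ?_⟩
    rcases Nat.lt_or_ge n (N + 1) with h1 | h1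
    · exact (min_le_left _ _).trans (h n (by omega))
    · have : n = N + 1 := by omega
      rw [this]
      exact min_le_right _ _

theorem pWKL : Pool.Agent.Helper68.QC.StWKL := by
  intro ι F g hg hB
  choose β0 hβ0 using fun n : ℕ => hB ((n : ℝ) + 1)
  -- weights
  set w : ℕ → ℝ := fun n => 1 / (2 ^ n * (1 + |β0 n|)) with hw
  have hw0 : ∀ n, 0 < w n := fun n => by
    rw [hw]
    positivity
  set θ : ℂ → ℝ := fun z => w ⌊‖z‖⌋₊ with hθ
  have hfl : Measurable fun z : ℂ => ⌊‖z‖⌋₊ := Nat.measurable_floor.comp measurable_norm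
  have hθm : Measurable θ := (measurable_from_nat (f := w)).comp hfl
  have hθ0 : ∀ z, 0 < θ z := fun z => hw0 _
  have hθlow : ∀ R : ℝ, ∃ c > 0, ∀ z : ℂ, ‖z‖ ≤ R → c ≤ θ z := by
    intro R
    obtain ⟨c, hc, h⟩ := lower w hw0 ⌊R⌋₊
    exact ⟨c, hc, fun z hz => h _ (Nat.floor_le_floor hz)⟩
  have hθcm : Measurable fun z => (θ z : ℂ) := Complex.measurable_ofReal.comp hθm
  -- the bound
  have hbd : ∀ i, ∫⁻ z, ‖(θ z : ℂ) * g i z‖ₑ ^ 2 ≤ ENNReal.ofReal 2 := by
    intro i
    have hU : (⋃ n : ℕ, {z : ℂ | ⌊‖z‖⌋₊ = n}) = univ := by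
      ext z
      simp
    have hm : ∀ n : ℕ, MeasurableSet {z : ℂ | ⌊‖z‖⌋₊ = n} := fun n =>
      hfl (measurableSet_singleton n)
    have hd : Pairwise (Function.onFun Disjoint fun n : ℕ => {z : ℂ | ⌊‖z‖⌋₊ = n}) := by
      intro m n hmn
      rw [Function.onFun, Set.disjoint_left]
      intro z h1 h2
      exact hmn (h1.symm.trans h2)
    rw [← setLIntegral_univ, ← hU, lintegral_iUnion hm hd]
    have h1 : ∀ n : ℕ, ∫⁻ z in {z : ℂ | ⌊‖z‖⌋₊ = n}, ‖(θ z : ℂ) * g i z‖ₑ ^ 2 ≤
        ENNReal.ofReal ((1 / 2) ^ n) := by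
      intro n
      have h2 : ∫⁻ z in {z : ℂ | ⌊‖z‖⌋₊ = n}, ‖(θ z : ℂ) * g i z‖ₑ ^ 2 =
          ∫⁻ z in {z : ℂ | ⌊‖z‖⌋₊ = n}, ENNReal.ofReal (w n ^ 2) * ‖g i z‖ₑ ^ 2 := by
        apply setLIntegral_congr_fun (hm n)
        intro z hz
        have h3 : θ z = w n := by
          change w ⌊‖z‖⌋₊ = w n
          have : ⌊‖z‖⌋₊ = n := hz
          rw [this]
        simp only
        rw [h3, enorm_mul, mul_pow]
        congr 1
        rw [← ofReal_norm, Complex.norm_real, Real.norm_eq_abs, abs_of_pos (hw0 n),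
          ← ENNReal.ofReal_pow (hw0 n).le]
      rw [h2, lintegral_const_mul' _ _ ENNReal.ofReal_ne_top]
      have h4 : ∫⁻ z in {z : ℂ | ⌊‖z‖⌋₊ = n}, ‖g i z‖ₑ ^ 2 ≤
          ∫⁻ z in Metric.closedBall (0 : ℂ) ((n : ℝ) + 1), ‖g i z‖ₑ ^ 2 := by
        apply lintegral_mono_set
        intro z hz
        have h5 : ⌊‖z‖⌋₊ = n := hz
        rw [mem_closedBall_zero_iff]
        have h6 := (Nat.lt_floor_add_one ‖z‖).le
        rw [h5] at h6
        exact h6
      have h7 := h4.trans (lint_ball (hg i) _ _ (hβ0 n i))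
      refine (mul_le_mul_right h7 _).trans ?_
      rw [← ENNReal.ofReal_mul (sq_nonneg _)]
      apply ENNReal.ofReal_le_ofReal
      have h8 : w n ^ 2 * β0 n ≤ w n ^ 2 * (1 + |β0 n|) :=
        mul_le_mul_of_nonneg_left (by have := le_abs_self (β0 n); linarith) (sq_nonneg _)
      refine h8.trans ?_
      have h9 : w n ^ 2 * (1 + |β0 n|) = (1 / 2) ^ n * w n := by
        rw [hw]
        have : (0 : ℝ) < 1 + |β0 n| := by positivity
        simp only [one_div_pow]
        field_simp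
      rw [h9]
      have h10 : w n ≤ 1 := by
        rw [hw]
        simp only
        rw [div_le_one (by positivity)]
        have h11 : (1 : ℝ) ≤ 2 ^ n := one_le_pow₀ (by norm_num)
        have h12 := abs_nonneg (β0 n)
        nlinarith
      exact mul_le_of_le_one_right (by positivity) h10
    refine (ENNReal.tsum_le_tsum h1).trans (le_of_eq ?_)
    rw [← ENNReal.ofReal_tsum_of_nonneg (fun n => by positivity)
      (summable_geometric_of_lt_one (by norm_num) (by norm_num)),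
      tsum_geometric_of_lt_one (by norm_num) (by norm_num)]
    norm_num
  have hxm : ∀ i, MemLp (fun z => (θ z : ℂ) * g i z) 2 volume := by
    intro i
    refine ⟨hθcm.aestronglyMeasurable.mul (aesm (hg i)), ?_⟩
    rw [eL2]
    exact (ENNReal.rpow_le_rpow (hbd i) (by norm_num)).trans_lt (by
      exact ENNReal.rpow_lt_top_of_nonneg (by norm_num) ENNReal.ofReal_ne_top)
  let X : ι → Lp ℂ 2 (volume : Measure ℂ) := fun i => (hxm i).toLp _
  have hXn : ∀ i, ‖X i‖ ≤ ((ENNReal.ofReal 2) ^ (1 / 2 : ℝ)).toReal := by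
    intro i
    rw [Lp.norm_toLp]
    apply ENNReal.toReal_mono
    · exact (ENNReal.rpow_lt_top_of_nonneg (by norm_num) ENNReal.ofReal_ne_top).ne
    · rw [eL2]
      exact ENNReal.rpow_le_rpow (hbd i) (by norm_num)
  obtain ⟨x, hx⟩ := weak_limit F X _ hXn
  have hxsm : StronglyMeasurable (x : ℂ → ℂ) := Lp.stronglyMeasurable x
  refine ⟨fun z => x z / (θ z : ℂ), hxsm.measurable.div hθcm, ?_, ?_⟩
  · intro K _ hK
    obtain ⟨R, hR⟩ := hK.isBounded.subset_closedBall 0
    obtain ⟨c, hc, hcθ⟩ := hθlow R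
    refine ((Lp.memLp x).restrict K).of_le_mul (c := c⁻¹)
      (hxsm.measurable.div hθcm).aestronglyMeasurable ?_
    refine (ae_restrict_iff' hK.measurableSet).2 (ae_of_all _ fun z hz => ?_)
    have h1 : c ≤ θ z := hcθ z (by simpa using hR hz)
    rw [norm_div, Complex.norm_real, Real.norm_eq_abs, abs_of_pos (hθ0 z), div_eq_inv_mul]
    apply mul_le_mul_of_nonneg_right _ (norm_nonneg _)
    exact inv_anti₀ hc h1
  · intro ψ hψ hψR
    obtain ⟨R, hR⟩ := hψR
    obtain ⟨c, hc, hcθ⟩ := hθlow R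
    have hy : MemLp (fun z => conj (ψ z / (θ z : ℂ))) 2 volume := by
      have hm : AEStronglyMeasurable (fun z => ψ z / (θ z : ℂ)) volume :=
        (hψ.1.aemeasurable.div hθcm.aemeasurable).aestronglyMeasurable
      refine hψ.of_le_mul (c := c⁻¹) (Complex.continuous_conj.comp_aestronglyMeasurable hm) ?_
      refine ae_of_all _ fun z => ?_
      rw [RCLike.norm_conj, norm_div, Complex.norm_real, Real.norm_eq_abs, abs_of_pos (hθ0 z),
        div_eq_inv_mul]
      by_cases hz : R < ‖z‖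
      · rw [hR z hz]
        simp
      · apply mul_le_mul_of_nonneg_right _ (norm_nonneg _)
        exact inv_anti₀ hc (hcθ z (not_lt.1 hz))
    have h1 := hx (hy.toLp _)
    have e1 : ∀ i, inner ℂ (hy.toLp _) (X i) = ∫ z, g i z * ψ z := by
      intro i
      rw [L2.inner_def]
      apply integral_congr_ae
      filter_upwards [hy.coeFn_toLp, (hxm i).coeFn_toLp] with z h2 h3
      rw [h2]
      change inner ℂ (conj (ψ z / (θ z : ℂ))) (((hxm i).toLp _ : Lp ℂ 2 volume) z) = _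
      rw [h3, RCLike.inner_apply]
      simp only [map_div₀, Complex.conj_conj, Complex.conj_ofReal]
      have h4 : (θ z : ℂ) ≠ 0 := by exact_mod_cast (hθ0 z).ne'
      field_simp
    have e2 : inner ℂ (hy.toLp _) x = ∫ z, x z / (θ z : ℂ) * ψ z := by
      rw [L2.inner_def]
      apply integral_congr_ae
      filter_upwards [hy.coeFn_toLp] with z h2
      rw [h2, RCLike.inner_apply]
      simp only [map_div₀, Complex.conj_conj, Complex.conj_ofReal]
      have h4 : (θ z : ℂ) ≠ 0 := by exact_mod_cast (hθ0 z).ne'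
      field_simp
    rw [e2] at h1
    simp only [e1] at h1
    exact h1

end Pool.Agent.Helper95.QCM
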